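import Pool.Agent.Q276.TwoEig

/-!
# The classes of graphs achieving the multiplicity bipartitions `[n - k, k]` are not nested

The graph has 22 vertices; it achieves `[12, 10]` but not `[11, 11]`.
-/

namespace Pool.Agent.Results.MP_808179_co.NotNested

open Matrix Pool.Agent.Q276.TwoEig

/-! ## Involutions with a cut of two vertices -/

section Cut

variable {V : Type} [Fintype V] [DecidableEq V]

theorem sum_split (f : V → ℝ) (X : Finset V) (w₁ w₂ : V) (h₁ : w₁ ∉ X) (h₂ : w₂ ∉ X)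
    (h₁₂ : w₁ ≠ w₂) (hz : ∀ k, k ∉ X → k ≠ w₁ → k ≠ w₂ → f k = 0) :
    ∑ k, f k = f w₁ + f w₂ + ∑ k ∈ X, f k := by
  have hsub : insert w₁ (insert w₂ X) ⊆ (Finset.univ : Finset V) := Finset.subset_univ _
  rw [← Finset.sum_subset hsub, Finset.sum_insert, Finset.sum_insert h₂, add_assoc]
  · simp [h₁₂, h₁]
  · intro k _ hk
    rw [Finset.mem_insert, Finset.mem_insert, not_or, not_or] at hk
    exact hz k hk.2.2 hk.1 hk.2.1

/-- One side of a cut: the trace is an integer of the right parity. -/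
theorem block_odd (B : Matrix V V ℝ) (hB : B * B = 1) (hs : ∀ i j, B i j = B j i) (X : Finset V)
    (w₁ w₂ : V) (h₁ : w₁ ∉ X) (h₂ : w₂ ∉ X) (h₁₂ : w₁ ≠ w₂)
    (hsep : ∀ u ∈ X, ∀ v, v ∉ X → v ≠ w₁ → v ≠ w₂ → B u v = 0) (hw : B w₁ w₂ = 0)
    (lam α : ℝ) (hlam : ∀ u ∈ X, B u w₂ = lam * B u w₁) (hα : B w₁ w₁ = α)
    (hσ : (1 + lam ^ 2) * ∑ u ∈ X, B u w₁ ^ 2 + α ^ 2 = 1) :
    ∃ m : ℕ, ∑ u ∈ X, B u u + α = 2 * m - (X.card + 1) := by
  classical
  have hκ : 0 ≤ 1 + lam ^ 2 := by positivity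
  set κ := Real.sqrt (1 + lam ^ 2) with hκdef
  have hκ2 : κ * κ = 1 + lam ^ 2 := Real.mul_self_sqrt hκ
  -- the products of the rows of `X`
  have hXX : ∀ u ∈ X, ∀ v ∈ X, ∑ t ∈ X, B u t * B t v + (κ * κ) * (B u w₁ * B v w₁) =
      (1 : Matrix V V ℝ) u v := by
    intro u hu v hv
    rw [← hB, Matrix.mul_apply, sum_split _ X w₁ w₂ h₁ h₂ h₁₂
      (fun k hk hk1 hk2 => by rw [hsep u hu k hk hk1 hk2, zero_mul]), hs w₁ v, hs w₂ v,
      hlam u hu, hlam v hv, hκ2]
    ring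
  have hXw : ∀ u ∈ X, ∑ t ∈ X, B u t * B t w₁ + B u w₁ * α = 0 := by
    intro u hu
    have h := congrFun (congrFun hB u) w₁
    rw [Matrix.mul_apply, sum_split _ X w₁ w₂ h₁ h₂ h₁₂
      (fun k hk hk1 hk2 => by rw [hsep u hu k hk hk1 hk2, zero_mul]), hα, hs w₂ w₁, hw,
      Matrix.one_apply_ne (fun h => h₁ (by rw [← h]; exact hu))] at h
    linarith
  obtain ⟨A₁, hA₁⟩ : ∃ A₁ : Matrix (X ⊕ Unit) (X ⊕ Unit) ℝ, A₁ = Matrix.of fun i j =>
      Sum.elim (fun u : X => Sum.elim (fun v : X => B u v) (fun _ => κ * B u w₁) j)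
        (fun _ => Sum.elim (fun v : X => κ * B v w₁) (fun _ => α) j) i := ⟨_, rfl⟩
  have a11 : ∀ u v : X, A₁ (Sum.inl u) (Sum.inl v) = B u v := fun u v => by rw [hA₁]; rfl
  have a12 : ∀ (u : X) (v : Unit), A₁ (Sum.inl u) (Sum.inr v) = κ * B u w₁ :=
    fun u v => by rw [hA₁]; rfl
  have a21 : ∀ (u : Unit) (v : X), A₁ (Sum.inr u) (Sum.inl v) = κ * B v w₁ :=
    fun u v => by rw [hA₁]; rfl
  have a22 : ∀ u v : Unit, A₁ (Sum.inr u) (Sum.inr v) = α := fun u v => by rw [hA₁]; rfl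
  have hA : A₁ * A₁ = 1 := by
    ext i j
    rw [Matrix.mul_apply, Fintype.sum_sum_type]
    rcases i with u | u <;> rcases j with v | v
    · simp only [a11, a12, a21, Finset.univ_unique, Finset.sum_singleton]
      rw [Finset.sum_coe_sort X (fun t => B u t * B t v)]
      have h := hXX u u.2 v v.2
      have h2 : (1 : Matrix (X ⊕ Unit) (X ⊕ Unit) ℝ) (Sum.inl u) (Sum.inl v) =
          (1 : Matrix V V ℝ) u v := by
        by_cases huv : u = v
        · rw [huv, Matrix.one_apply_eq, Matrix.one_apply_eq]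
        · rw [Matrix.one_apply_ne (fun h' => huv (Sum.inl_injective h')),
            Matrix.one_apply_ne (fun h' => huv (Subtype.ext h'))]
      rw [h2, ← h]
      ring
    · simp only [a11, a12, a22, Finset.univ_unique, Finset.sum_singleton]
      rw [Finset.sum_coe_sort X (fun t => B u t * (κ * B t w₁)),
        Matrix.one_apply_ne (by simp)]
      have h := hXw u u.2
      have h3 : ∑ t ∈ X, B u t * (κ * B t w₁) = κ * ∑ t ∈ X, B u t * B t w₁ := by
        rw [Finset.mul_sum]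
        exact Finset.sum_congr rfl fun t _ => by ring
      rw [h3]
      linear_combination κ * h
    · simp only [a11, a21, a22, Finset.univ_unique, Finset.sum_singleton]
      rw [Finset.sum_coe_sort X (fun t => κ * B t w₁ * B t v),
        Matrix.one_apply_ne (by simp)]
      have h := hXw v v.2
      have h3 : ∑ t ∈ X, κ * B t w₁ * B t v = κ * ∑ t ∈ X, B v t * B t w₁ := by
        rw [Finset.mul_sum]
        exact Finset.sum_congr rfl fun t _ => by rw [hs v t]; ring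
      rw [h3]
      linear_combination κ * h
    · simp only [a12, a21, a22, Finset.univ_unique, Finset.sum_singleton]
      rw [Finset.sum_coe_sort X (fun t => κ * B t w₁ * (κ * B t w₁))]
      have h3 : ∑ t ∈ X, κ * B t w₁ * (κ * B t w₁) = (1 + lam ^ 2) * ∑ u ∈ X, B u w₁ ^ 2 := by
        rw [Finset.mul_sum, ← hκ2]
        exact Finset.sum_congr rfl fun t _ => by ring
      rw [h3, Subsingleton.elim v u, Matrix.one_apply_eq]
      linear_combination hσ
  have htr : A₁.trace = ∑ u ∈ X, B u u + α := by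
    rw [Matrix.trace, Fintype.sum_sum_type]
    simp only [Matrix.diag_apply, a11, a22, Finset.univ_unique, Finset.sum_singleton]
    rw [Finset.sum_coe_sort X (fun t => B t t)]
  have h := mult_one A₁ hA
  refine ⟨mult A₁ 1, ?_⟩
  rw [← htr, h]
  simp only [Fintype.card_sum, Fintype.card_coe, Fintype.card_unit, Nat.cast_add, Nat.cast_one]
  ring

end Cut

/-! ## The graph -/

/-- The entries of the matrix `250 A`, where `A` is an involution. -/
def table : List (List ℤ) :=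
  [[90, 0, 80, -80, 0, 0, 0, 0, 80, 80, -96, 0, 0, -60, 60, 0, 0, 0, 0, -60, -60, 72],
    [0, 0, 125, -125, 0, 0, 0, 0, -125, -125, 0, 0, 0, 0, 0, 0, 0, 0, 0, 0, 0, 0],
    [80, 125, 0, 0, 125, -125, 0, 0, 0, 0, 75, 60, 0, 0, 0, 0, 0, 0, 0, 0, 0, 0],
    [-80, -125, 0, 0, 125, -125, 0, 0, 0, 0, -75, -60, 0, 0, 0, 0, 0, 0, 0, 0, 0, 0],
    [0, 0, 125, 125, 0, 0, 125, -125, 0, 0, 0, 0, 0, 0, 0, 0, 0, 0, 0, 0, 0, 0],
    [0, 0, -125, -125, 0, 0, 125, -125, 0, 0, 0, 0, 0, 0, 0, 0, 0, 0, 0, 0, 0, 0],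
    [0, 0, 0, 0, 125, 125, 0, 0, 125, -125, 0, 0, 0, 0, 0, 0, 0, 0, 0, 0, 0, 0],
    [0, 0, 0, 0, -125, -125, 0, 0, 125, -125, 0, 0, 0, 0, 0, 0, 0, 0, 0, 0, 0, 0],
    [80, -125, 0, 0, 0, 0, 125, 125, 0, 0, 75, 60, 0, 0, 0, 0, 0, 0, 0, 0, 0, 0],
    [80, -125, 0, 0, 0, 0, -125, -125, 0, 0, 75, 60, 0, 0, 0, 0, 0, 0, 0, 0, 0, 0],
    [-96, 0, 75, -75, 0, 0, 0, 0, 75, 75, 160, -72, 0, 0, 0, 0, 0, 0, 0, 0, 0, 0],
    [0, 0, 60, -60, 0, 0, 0, 0, 60, 60, -72, 90, 0, 80, -80, 0, 0, 0, 0, 80, 80, -96],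
    [0, 0, 0, 0, 0, 0, 0, 0, 0, 0, 0, 0, 0, 125, -125, 0, 0, 0, 0, -125, -125, 0],
    [-60, 0, 0, 0, 0, 0, 0, 0, 0, 0, 0, 80, 125, 0, 0, 125, -125, 0, 0, 0, 0, 75],
    [60, 0, 0, 0, 0, 0, 0, 0, 0, 0, 0, -80, -125, 0, 0, 125, -125, 0, 0, 0, 0, -75],
    [0, 0, 0, 0, 0, 0, 0, 0, 0, 0, 0, 0, 0, 125, 125, 0, 0, 125, -125, 0, 0, 0],
    [0, 0, 0, 0, 0, 0, 0, 0, 0, 0, 0, 0, 0, -125, -125, 0, 0, 125, -125, 0, 0, 0],
    [0, 0, 0, 0, 0, 0, 0, 0, 0, 0, 0, 0, 0, 0, 0, 125, 125, 0, 0, 125, -125, 0],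
    [0, 0, 0, 0, 0, 0, 0, 0, 0, 0, 0, 0, 0, 0, 0, -125, -125, 0, 0, 125, -125, 0],
    [-60, 0, 0, 0, 0, 0, 0, 0, 0, 0, 0, 80, -125, 0, 0, 0, 0, 125, 125, 0, 0, 75],
    [-60, 0, 0, 0, 0, 0, 0, 0, 0, 0, 0, 80, -125, 0, 0, 0, 0, -125, -125, 0, 0, 75],
    [72, 0, 0, 0, 0, 0, 0, 0, 0, 0, 0, -96, 0, 75, -75, 0, 0, 0, 0, 75, 75, 160]]

/-- The integer matrix `250 A`. -/
def M (i j : Fin 22) : ℤ := (table.getD i.val []).getD j.val 0

/-- The graph: the pattern of `M`. -/
def graph : SimpleGraph (Fin 22) where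
  Adj i j := i ≠ j ∧ M i j ≠ 0
  symm := ⟨by decide +kernel⟩
  loopless := ⟨fun i h => h.1 rfl⟩

instance : DecidableRel graph.Adj := fun i j => inferInstanceAs (Decidable (i ≠ j ∧ M i j ≠ 0))

theorem M_symm : ∀ i j, M i j = M j i := by decide +kernel

theorem M_sq : ∀ i j, ∑ k, M i k * M k j = if i = j then 62500 else 0 := by decide +kernel

theorem M_trace : ∑ k, M k k = 500 := by decide +kernel

/-- The involution. -/
noncomputable def A : Matrix (Fin 22) (Fin 22) ℝ := fun i j => (M i j : ℝ) / 250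

theorem A_graph : IsMatrixOf graph A := by
  constructor
  · ext i j
    simp only [A, Matrix.transpose_apply, M_symm j i]
  · intro i j hij
    have h : A i j ≠ 0 ↔ M i j ≠ 0 := by
      simp [A]
    rw [h]
    exact ⟨fun h => ⟨hij, h⟩, fun h => h.2⟩

theorem A_sq : A * A = 1 := by
  ext i j
  have h : (∑ k, (M i k : ℝ) * (M k j : ℝ)) = if i = j then 62500 else 0 := by
    have := M_sq i j
    have h2 : ((∑ k, M i k * M k j : ℤ) : ℝ) = ((if i = j then 62500 else 0 : ℤ) : ℝ) := by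
      rw [this]
    push_cast at h2
    exact h2
  have h3 : ∀ k, A i k * A k j = ((M i k : ℝ) * (M k j : ℝ)) * (1 / 62500) := by
    intro k
    simp only [A]
    ring
  rw [Matrix.mul_apply, Finset.sum_congr rfl (fun k _ => h3 k), ← Finset.sum_mul, h,
    Matrix.one_apply]
  split_ifs <;> norm_num

theorem A_trace : A.trace = 2 := by
  have h : ((∑ k, M k k : ℤ) : ℝ) = 500 := by rw [M_trace]; norm_num
  push_cast at h
  rw [Matrix.trace]
  simp only [Matrix.diag_apply, A]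
  rw [← Finset.sum_div, h]
  norm_num

theorem achieves_ten : Achieves graph 10 :=
  (achieves_of graph A A_graph A_sq 10 (by norm_num) (by simp) (by rw [A_trace]; norm_num)).1

/-! ## The bipartition `[11, 11]` is not achieved -/

/-- The two sides of the cut `{0, 11}`. -/
def X₁ : Finset (Fin 22) := {1, 2, 3, 4, 5, 6, 7, 8, 9, 10}

/-- The two sides of the cut `{0, 11}`. -/
def X₂ : Finset (Fin 22) := {12, 13, 14, 15, 16, 17, 18, 19, 20, 21}

theorem sum_all (f : Fin 22 → ℝ) :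
    ∑ k, f k = f 0 + f 11 + ∑ k ∈ X₁, f k + ∑ k ∈ X₂, f k := by
  have h : (Finset.univ : Finset (Fin 22)) = insert 0 (insert 11 (X₁ ∪ X₂)) := by decide
  rw [h, Finset.sum_insert (by decide), Finset.sum_insert (by decide),
    Finset.sum_union (by decide)]
  ring

theorem not_achieves : ¬ Achieves graph 11 := by
  intro hach
  obtain ⟨B, hG, hB, htr⟩ := exists_involution graph 11 (by simp) hach
  have hs : ∀ i j, B i j = B j i := fun i j => hG.1.apply j i
  have hzero : ∀ i j, i ≠ j → ¬ graph.Adj i j → B i j = 0 := fun i j hij h => by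
    by_contra hne
    exact h ((hG.2 i j hij).mp hne)
  have r : ∀ i j, (graph.Adj i j ∧ ∀ k, ¬ (graph.Adj i k ∧ graph.Adj k j)) →
      B i i + B j j = 0 := fun i j h => rule graph B hG hB i j h.1 h.2
  -- the zero entries of the diagonal
  have h1 : B 1 1 = 0 := by
    have a1 := r 1 2 (by decide +kernel)
    have a2 := r 2 4 (by decide +kernel)
    have a3 := r 4 6 (by decide +kernel)
    have a4 := r 6 8 (by decide +kernel)
    have a5 := r 1 8 (by decide +kernel)
    linarith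
  have h2 : B 2 2 = 0 := by have := r 1 2 (by decide +kernel); linarith
  have h3 : B 3 3 = 0 := by have := r 1 3 (by decide +kernel); linarith
  have h8 : B 8 8 = 0 := by have := r 1 8 (by decide +kernel); linarith
  have h9 : B 9 9 = 0 := by have := r 1 9 (by decide +kernel); linarith
  have h4 : B 4 4 = 0 := by have := r 2 4 (by decide +kernel); linarith
  have h5 : B 5 5 = 0 := by have := r 2 5 (by decide +kernel); linarith
  have h6 : B 6 6 = 0 := by have := r 6 8 (by decide +kernel); linarith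
  have h7 : B 7 7 = 0 := by have := r 7 8 (by decide +kernel); linarith
  have h12 : B 12 12 = 0 := by
    have a1 := r 12 13 (by decide +kernel)
    have a2 := r 13 15 (by decide +kernel)
    have a3 := r 15 17 (by decide +kernel)
    have a4 := r 17 19 (by decide +kernel)
    have a5 := r 12 19 (by decide +kernel)
    linarith
  have h13 : B 13 13 = 0 := by have := r 12 13 (by decide +kernel); linarith
  have h14 : B 14 14 = 0 := by have := r 12 14 (by decide +kernel); linarith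
  have h19 : B 19 19 = 0 := by have := r 12 19 (by decide +kernel); linarith
  have h20 : B 20 20 = 0 := by have := r 12 20 (by decide +kernel); linarith
  have h15 : B 15 15 = 0 := by have := r 13 15 (by decide +kernel); linarith
  have h16 : B 16 16 = 0 := by have := r 13 16 (by decide +kernel); linarith
  have h17 : B 17 17 = 0 := by have := r 17 19 (by decide +kernel); linarith
  have h18 : B 18 18 = 0 := by have := r 18 19 (by decide +kernel); linarith
  have ht1 : ∑ u ∈ X₁, B u u = B 10 10 := by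
    simp [X₁, h1, h2, h3, h4, h5, h6, h7, h8, h9]
  have ht2 : ∑ u ∈ X₂, B u u = B 21 21 := by
    simp [X₂, h12, h13, h14, h15, h16, h17, h18, h19, h20]
  -- the two sides are not adjacent
  have hsep : ∀ u ∈ X₁, ∀ v ∈ X₂, B u v = 0 := by
    have hd : ∀ u ∈ X₁, ∀ v ∈ X₂, u ≠ v ∧ ¬ graph.Adj u v := by decide +kernel
    intro u hu v hv
    exact hzero u v (hd u hu v hv).1 (hd u hu v hv).2
  have hw : B 0 11 = 0 := hzero 0 11 (by decide) (by decide +kernel)
  have hn1 : B 0 13 ≠ 0 := (hG.2 _ _ (by decide)).mpr (by decide +kernel)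
  have hn2 : B 11 13 ≠ 0 := (hG.2 _ _ (by decide)).mpr (by decide +kernel)
  have hn3 : B 2 0 ≠ 0 := (hG.2 _ _ (by decide)).mpr (by decide +kernel)
  have m2 : (2 : Fin 22) ∈ X₁ := by decide
  have m13 : (13 : Fin 22) ∈ X₂ := by decide
  -- products of rows on different sides
  have hprod : ∀ u ∈ X₁, ∀ v ∈ X₂, B u 0 * B 0 v + B u 11 * B 11 v = 0 := by
    intro u hu v hv
    have h := congrFun (congrFun hB u) v
    rw [Matrix.mul_apply, sum_all, Finset.sum_eq_zero (s := X₁)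
      (fun k hk => by rw [hsep k hk v hv, mul_zero]), Finset.sum_eq_zero (s := X₂)
      (fun k hk => by rw [hsep u hu k hk, zero_mul])] at h
    have hne : u ≠ v := by
      have hd : ∀ u ∈ X₁, ∀ v ∈ X₂, u ≠ v := by decide
      exact hd u hu v hv
    rw [Matrix.one_apply_ne hne] at h
    linarith
  obtain ⟨lam, hlam⟩ : ∃ lam : ℝ, lam = - B 0 13 / B 11 13 := ⟨_, rfl⟩
  have hlam0 : lam ≠ 0 := by
    rw [hlam]
    exact div_ne_zero (neg_ne_zero.mpr hn1) hn2
  have hl1 : ∀ u ∈ X₁, B u 11 = lam * B u 0 := by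
    intro u hu
    have h := hprod u hu 13 m13
    rw [hlam]
    field_simp
    linarith
  have hl2 : ∀ v ∈ X₂, B v 0 = - lam * B v 11 := by
    intro v hv
    have h := hprod 2 m2 v hv
    rw [hl1 2 m2] at h
    have h' : B 2 0 * (B 0 v + lam * B 11 v) = 0 := by linarith
    rcases mul_eq_zero.mp h' with h'' | h''
    · exact absurd h'' hn3
    · rw [hs v 0, hs v 11]
      linarith
  -- the two sums of squares agree
  obtain ⟨S₁, hS₁⟩ : ∃ S : ℝ, S = ∑ u ∈ X₁, B u 0 ^ 2 := ⟨_, rfl⟩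
  obtain ⟨S₂, hS₂⟩ : ∃ S : ℝ, S = ∑ v ∈ X₂, B v 11 ^ 2 := ⟨_, rfl⟩
  have e1 : ∑ k ∈ X₁, B 0 k * B k 11 = lam * S₁ := by
    rw [hS₁, Finset.mul_sum]
    exact Finset.sum_congr rfl fun k hk => by rw [hl1 k hk, hs 0 k]; ring
  have e2 : ∑ k ∈ X₂, B 0 k * B k 11 = - lam * S₂ := by
    rw [hS₂, Finset.mul_sum]
    exact Finset.sum_congr rfl fun k hk => by rw [hs 0 k, hl2 k hk]; ring
  have e3 : ∑ k ∈ X₁, B 0 k * B k 0 = S₁ := by
    rw [hS₁]
    exact Finset.sum_congr rfl fun k hk => by rw [hs 0 k]; ring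
  have e4 : ∑ k ∈ X₂, B 0 k * B k 0 = lam ^ 2 * S₂ := by
    rw [hS₂, Finset.mul_sum]
    exact Finset.sum_congr rfl fun k hk => by rw [hs 0 k, hl2 k hk]; ring
  have e5 : ∑ k ∈ X₁, B 11 k * B k 11 = lam ^ 2 * S₁ := by
    rw [hS₁, Finset.mul_sum]
    exact Finset.sum_congr rfl fun k hk => by rw [hs 11 k, hl1 k hk]; ring
  have e6 : ∑ k ∈ X₂, B 11 k * B k 11 = S₂ := by
    rw [hS₂]
    exact Finset.sum_congr rfl fun k hk => by rw [hs 11 k]; ring
  have f1 : lam * S₁ - lam * S₂ = 0 := by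
    have h := congrFun (congrFun hB 0) 11
    rw [Matrix.mul_apply, sum_all, e1, e2, hw, Matrix.one_apply_ne (by decide)] at h
    linarith
  have hSS : S₁ = S₂ := by
    have : lam * (S₁ - S₂) = 0 := by linarith
    rcases mul_eq_zero.mp this with h | h
    · exact absurd h hlam0
    · linarith
  have f2 : B 0 0 ^ 2 + S₁ + lam ^ 2 * S₂ = 1 := by
    have h := congrFun (congrFun hB 0) 0
    rw [Matrix.mul_apply, sum_all, e3, e4, hw, Matrix.one_apply_eq] at h
    linarith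
  have f3 : B 11 11 ^ 2 + lam ^ 2 * S₁ + S₂ = 1 := by
    have h := congrFun (congrFun hB 11) 11
    rw [Matrix.mul_apply, sum_all, e5, e6, hs 11 0, hw, Matrix.one_apply_eq] at h
    linarith
  -- the two diagonal entries agree
  have g1 : ∑ k ∈ X₁, B 2 k * B k 0 + B 2 0 * B 0 0 = 0 := by
    have h := congrFun (congrFun hB 2) 0
    rw [Matrix.mul_apply, sum_all, Finset.sum_eq_zero (s := X₂)
      (fun k hk => by rw [hsep 2 m2 k hk, zero_mul]), hs 11 0, hw,
      Matrix.one_apply_ne (by decide)] at h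
    linarith
  have g2 : lam * (∑ k ∈ X₁, B 2 k * B k 0) + lam * B 2 0 * B 11 11 = 0 := by
    have h := congrFun (congrFun hB 2) 11
    rw [Matrix.mul_apply, sum_all, Finset.sum_eq_zero (s := X₂)
      (fun k hk => by rw [hsep 2 m2 k hk, zero_mul]), hw,
      Matrix.one_apply_ne (by decide), hl1 2 m2] at h
    have h' : ∑ k ∈ X₁, B 2 k * B k 11 = lam * ∑ k ∈ X₁, B 2 k * B k 0 := by
      rw [Finset.mul_sum]
      exact Finset.sum_congr rfl fun k hk => by rw [hl1 k hk]; ring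
    rw [h'] at h
    linarith
  have hαα : B 11 11 = B 0 0 := by
    have h : lam * (B 2 0 * (B 11 11 - B 0 0)) = 0 := by linear_combination g2 - lam * g1
    rcases mul_eq_zero.mp h with h | h
    · exact absurd h hlam0
    · rcases mul_eq_zero.mp h with h | h
      · exact absurd h hn3
      · linarith
  -- the two sides
  have hX₁ : ∀ v, v ∉ X₁ → v ≠ 0 → v ≠ 11 → v ∈ X₂ := by decide
  have hX₂ : ∀ v, v ∉ X₂ → v ≠ 11 → v ≠ 0 → v ∈ X₁ := by decide
  obtain ⟨m₁, hm₁⟩ := block_odd B hB hs X₁ 0 11 (by decide) (by decide) (by decide)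
    (fun u hu v hv h0 h11 => hsep u hu v (hX₁ v hv h0 h11)) hw lam (B 0 0) hl1 rfl
    (by rw [← hS₁]; rw [← hSS] at f2; linarith)
  obtain ⟨m₂, hm₂⟩ := block_odd B hB hs X₂ 11 0 (by decide) (by decide) (by decide)
    (fun u hu v hv h11 h0 => by rw [hs]; exact hsep v (hX₂ v hv h11 h0) u hu)
    (by rw [hs]; exact hw) (-lam) (B 11 11) hl2 rfl
    (by rw [← hS₂, neg_sq]; rw [hSS] at f3; linarith)
  have c₁ : X₁.card = 10 := by decide
  have c₂ : X₂.card = 10 := by decide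
  rw [ht1, c₁] at hm₁
  rw [ht2, c₂, hαα] at hm₂
  have htr2 : B 0 0 + B 11 11 + B 10 10 + B 21 21 = 0 := by
    have h : B.trace = B 0 0 + B 11 11 + ∑ k ∈ X₁, B k k + ∑ k ∈ X₂, B k k := by
      rw [Matrix.trace, sum_all]
      simp only [Matrix.diag_apply]
    rw [ht1, ht2] at h
    rw [← h, htr]
    simp only [Fintype.card_fin]
    norm_num
  have b0 := diag_lt graph B hG hB 0 2 (by decide +kernel)
  have b10 := diag_lt graph B hG hB 10 0 (by decide +kernel)
  have b21 := diag_lt graph B hG hB 21 0 (by decide +kernel)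
  rw [abs_lt] at b0 b10 b21
  -- integers
  have i1 : (4 : ℝ) < m₁ := by push_cast at hm₁; linarith
  have i2 : (m₁ : ℝ) < 7 := by push_cast at hm₁; linarith
  have i3 : (4 : ℝ) < m₂ := by push_cast at hm₂; linarith
  have i4 : (m₂ : ℝ) < 7 := by push_cast at hm₂; linarith
  have i5 : 4 < m₁ := by exact_mod_cast i1
  have i6 : m₁ < 7 := by exact_mod_cast i2
  have i7 : 4 < m₂ := by exact_mod_cast i3
  have i8 : m₂ < 7 := by exact_mod_cast i4
  push_cast at hm₁ hm₂
  rw [hαα] at htr2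
  have hc : m₁ = 5 ∨ m₁ = 6 := by omega
  have hc' : m₂ = 5 ∨ m₂ = 6 := by omega
  rcases hc with rfl | rfl <;> rcases hc' with rfl | rfl
  · push_cast at hm₁ hm₂
    linarith
  · push_cast at hm₁ hm₂
    linarith
  · push_cast at hm₁ hm₂
    linarith
  · push_cast at hm₁ hm₂
    linarith

/-- **The answer to the question is negative.** There are a graph with `n` vertices and a number
`k ≥ 3` with `k + 1 ≤ ⌊n / 2⌋` such that the graph achieves the multiplicity bipartition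
`[n - k, k]` but not `[n - k - 1, k + 1]`. -/
theorem result : ∃ (n k : ℕ) (G : SimpleGraph (Fin n)), 3 ≤ k ∧ k + 1 ≤ n / 2 ∧
    Achieves G k ∧ ¬ Achieves G (k + 1) :=
  ⟨22, 10, graph, by norm_num, by norm_num, achieves_ten, not_achieves⟩

end Pool.Agent.Results.MP_808179_co.NotNested
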